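import Mathlib

set_option autoImplicit false

namespace Pool.Agent.U269.UnitPer

open Complex

/-- The point of the open disc of radius `1/2` with the spinor coordinate `v`. -/
noncomputable def p (v : ℂ) : ℂ := ((1 + 2 * normSq v : ℝ) : ℂ)⁻¹ * v ^ 2

lemma den_pos (v : ℂ) : 0 < 1 + 2 * normSq v := by
  have := normSq_nonneg v
  linarith

lemma norm_p (v : ℂ) : ‖p v‖ = normSq v / (1 + 2 * normSq v) := by
  rw [p, norm_mul, norm_inv, norm_real, Real.norm_of_nonneg (den_pos v).le, norm_pow,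
    ← normSq_eq_norm_sq]
  field_simp

/-- Spinor coordinates linearize the unit perimeter condition. -/
lemma key {v w : ℂ} (h : v.re * w.im - v.im * w.re = 1 / 2) :
    ‖p v‖ + ‖p w‖ + ‖p v - p w‖ = 1 := by
  have hv := den_pos v
  have hw := den_pos w
  have h1 : ‖p v - p w‖ = (1 + normSq v + normSq w) / ((1 + 2 * normSq v) * (1 + 2 * normSq w)) := by
    have e : p v - p w = (((1 + 2 * normSq v) * (1 + 2 * normSq w) : ℝ) : ℂ)⁻¹ *
        (v ^ 2 * ((1 + 2 * normSq w : ℝ) : ℂ) - w ^ 2 * ((1 + 2 * normSq v : ℝ) : ℂ)) := by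
      have hv' : ((1 + 2 * normSq v : ℝ) : ℂ) ≠ 0 := by exact_mod_cast hv.ne'
      have hw' : ((1 + 2 * normSq w : ℝ) : ℂ) ≠ 0 := by exact_mod_cast hw.ne'
      rw [p, p, ofReal_mul, mul_inv, mul_sub]
      congr 1
      · field_simp
      · field_simp
    rw [e, norm_mul, norm_inv, norm_real, Real.norm_of_nonneg (by positivity), inv_mul_eq_div]
    congr 1
    have h2 : ‖v ^ 2 * ((1 + 2 * normSq w : ℝ) : ℂ) - w ^ 2 * ((1 + 2 * normSq v : ℝ) : ℂ)‖ ^ 2 =
        (1 + normSq v + normSq w) ^ 2 := by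
      rw [← normSq_eq_norm_sq]
      simp only [normSq_apply, sub_re, sub_im, mul_re, mul_im, ofReal_re, ofReal_im, pow_two]
      linear_combination (1 + 2 * (v.re * v.re + v.im * v.im)) * (1 + 2 * (w.re * w.re +
        w.im * w.im)) * 4 * (v.re * w.im - v.im * w.re + 1 / 2) * h
    have h3 : 0 ≤ 1 + normSq v + normSq w := by
      have := normSq_nonneg v
      have := normSq_nonneg w
      linarith
    exact (pow_left_inj₀ (norm_nonneg _) h3 two_ne_zero).1 h2
  rw [norm_p, norm_p, h1]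
  generalize normSq v = a at hv ⊢
  generalize normSq w = b at hw ⊢
  rw [div_add_div _ _ hv.ne' hw.ne', ← add_div, div_eq_one_iff_eq (by positivity)]
  ring

lemma p_inj {v w : ℂ} (hv : 0 < v.re) (hw : 0 < w.re) (h : p v = p w) : v = w := by
  have h1 : normSq v / (1 + 2 * normSq v) = normSq w / (1 + 2 * normSq w) := by
    rw [← norm_p, ← norm_p, h]
  have hN : normSq v = normSq w := by
    have hv' := den_pos v
    have hw' := den_pos w
    rw [div_eq_div_iff hv'.ne' hw'.ne'] at h1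
    linarith
  have h2 : v ^ 2 = w ^ 2 := by
    rw [p, p, hN] at h
    have hw' : ((1 + 2 * normSq w : ℝ) : ℂ)⁻¹ ≠ 0 := by
      apply inv_ne_zero
      exact_mod_cast (den_pos w).ne'
    exact mul_left_cancel₀ hw' h
  rcases sq_eq_sq_iff_eq_or_eq_neg.1 h2 with h3 | h3
  · exact h3
  · exfalso
    rw [h3, neg_re] at hv
    linarith

lemma p_ne_zero {v : ℂ} (hv : 0 < v.re) : p v ≠ 0 := by
  rw [p]
  apply mul_ne_zero
  · apply inv_ne_zero
    exact_mod_cast (den_pos v).ne'
  · apply pow_ne_zero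
    rintro rfl
    simp at hv

lemma not_collinear {v w : ℂ} (h : v.re * w.im - v.im * w.re = 1 / 2)
    (h2 : 0 < v.re * w.re + v.im * w.im) : ¬ Collinear ℝ ({0, p v, p w} : Set ℂ) := by
  intro hc
  rw [collinear_iff_of_mem (p₀ := (0 : ℂ)) (by simp)] at hc
  obtain ⟨u, hu⟩ := hc
  obtain ⟨r, hr⟩ := hu (p v) (by simp)
  obtain ⟨s, hs⟩ := hu (p w) (by simp)
  simp only [vadd_eq_add, add_zero, real_smul] at hr hs
  -- the cross product
  have h3 : (p v).re * (p w).im - (p v).im * (p w).re = 0 := by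
    rw [hr, hs]
    simp only [mul_re, mul_im, ofReal_re, ofReal_im]
    ring
  have h4 : (p v).re * (p w).im - (p v).im * (p w).re =
      (1 + 2 * normSq v)⁻¹ * (1 + 2 * normSq w)⁻¹ *
        (2 * (v.re * w.re + v.im * w.im) * (v.re * w.im - v.im * w.re)) := by
    rw [p, p, ← ofReal_inv, ← ofReal_inv]
    simp only [mul_re, mul_im, ofReal_re, ofReal_im, pow_two]
    ring
  have hv := den_pos v
  have hw := den_pos w
  rw [h4, h] at h3
  have : 0 < (1 + 2 * normSq v)⁻¹ * (1 + 2 * normSq w)⁻¹ *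
        (2 * (v.re * w.re + v.im * w.im) * (1 / 2)) := by positivity
  linarith

end Pool.Agent.U269.UnitPer
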