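import Mathlib

set_option autoImplicit false

namespace Pool.Agent.U269

open Set Metric Topology

section Conn

variable {V : Type*} [NormedAddCommGroup V] [NormedSpace ℝ V]

/-- The distance to a convex set is convex. -/
lemma infDist_combo {C : Set V} (hC : Convex ℝ C) (hne : C.Nonempty) (u v : V) {a b : ℝ}
    (ha : 0 ≤ a) (hb : 0 ≤ b) (hab : a + b = 1) :
    infDist (a • u + b • v) C ≤ a * infDist u C + b * infDist v C := by
  refine le_of_forall_pos_le_add fun ε hε => ?_
  obtain ⟨cu, hcu, hu⟩ := (infDist_lt_iff hne).1 (lt_add_of_pos_right (infDist u C) hε)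
  obtain ⟨cv, hcv, hv⟩ := (infDist_lt_iff hne).1 (lt_add_of_pos_right (infDist v C) hε)
  have hmem : a • cu + b • cv ∈ C := hC hcu hcv ha hb hab
  calc infDist (a • u + b • v) C ≤ dist (a • u + b • v) (a • cu + b • cv) :=
        infDist_le_dist_of_mem hmem
    _ ≤ dist (a • u) (a • cu) + dist (b • v) (b • cv) := dist_add_add_le _ _ _ _
    _ = a * dist u cu + b * dist v cv := by
        rw [dist_smul₀, dist_smul₀, Real.norm_of_nonneg ha, Real.norm_of_nonneg hb]
    _ ≤ a * (infDist u C + ε) + b * (infDist v C + ε) := by gcongr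
    _ = a * infDist u C + b * infDist v C + ε := by linear_combination ε * hab

/-- `u` and `v` are joined in `E` inside the triangle with apex `y`. -/
def Joined3 (E : Set V) (y u v : V) : Prop :=
  ∃ K : Set V, K ⊆ E ∧ K ⊆ convexHull ℝ {y, u, v} ∧ IsPreconnected K ∧ u ∈ K ∧ v ∈ K

/-- points of the triangle `y u v` as combinations. -/
lemma mem_tri {y u v z : V} (hz : z ∈ convexHull ℝ {y, u, v}) :
    ∃ a b c : ℝ, 0 ≤ a ∧ 0 ≤ b ∧ 0 ≤ c ∧ a + b + c = 1 ∧ a • y + b • u + c • v = z := by
  rw [convexHull_insert (by simp)] at hz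
  rw [convexHull_pair] at hz
  rw [mem_convexJoin] at hz
  obtain ⟨y', hy', w, hw, hz⟩ := hz
  rw [mem_singleton_iff] at hy'
  subst hy'
  obtain ⟨p, q, hp, hq, hpq, rfl⟩ := hw
  obtain ⟨s, t, hs, ht, hst, rfl⟩ := hz
  refine ⟨s, t * p, t * q, hs, by positivity, by positivity, ?_, ?_⟩
  · linear_combination hst + t * hpq
  · rw [smul_add, smul_smul, smul_smul, add_assoc]

lemma tri_mem {S : Set V} (hS : Convex ℝ S) {y u v : V} (hy : y ∈ S) (hu : u ∈ S) (hv : v ∈ S) :
    convexHull ℝ {y, u, v} ⊆ S := by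
  apply convexHull_min _ hS
  intro x hx
  simp only [mem_insert_iff, mem_singleton_iff] at hx
  rcases hx with rfl | rfl | rfl <;> assumption

/-- distance along the triangle. -/
lemma infDist_tri {C : Set V} (hC : Convex ℝ C) {y : V} (hy : y ∈ C) (u v : V) {a b c : ℝ}
    (ha : 0 ≤ a) (hb : 0 ≤ b) (hc : 0 ≤ c) (habc : a + b + c = 1) :
    infDist (a • y + b • u + c • v) C ≤ b * infDist u C + c * infDist v C := by
  have hne : C.Nonempty := ⟨y, hy⟩
  by_cases h : b + c = 0
  · have hb0 : b = 0 := by linarith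
    have hc0 : c = 0 := by linarith
    have ha1 : a = 1 := by linarith
    subst hb0 hc0 ha1
    simp [infDist_zero_of_mem hy]
  · have hpos : 0 < b + c := lt_of_le_of_ne (by positivity) (Ne.symm h)
    have e : a • y + b • u + c • v = a • y + (b + c) • ((b / (b + c)) • u + (c / (b + c)) • v) := by
      rw [smul_add, smul_smul, smul_smul, mul_div_cancel₀ _ h, mul_div_cancel₀ _ h, add_assoc]
    rw [e]
    have h1 := infDist_combo hC hne y ((b / (b + c)) • u + (c / (b + c)) • v) ha hpos.le
      (by linarith)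
    have h2 := infDist_combo hC hne u v (a := b / (b + c)) (b := c / (b + c)) (by positivity)
      (by positivity) (by field_simp)
    rw [infDist_zero_of_mem hy, mul_zero, zero_add] at h1
    calc _ ≤ _ := h1
      _ ≤ (b + c) * (b / (b + c) * infDist u C + c / (b + c) * infDist v C) := by gcongr
      _ = _ := by field_simp

end Conn

end Pool.Agent.U269
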