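import Mathlib
import Pool.Agent.U269.StarA

set_option autoImplicit false

namespace Pool.Agent.U269

open Set Metric Topology

section Loc

variable {V : Type*} [NormedAddCommGroup V] [NormedSpace ℝ V]

lemma joined3_of_segment {E : Set V} {y u v : V} (h : segment ℝ u v ⊆ E) : Joined3 E y u v := by
  refine ⟨segment ℝ u v, h, ?_, (convex_segment u v).isPreconnected, left_mem_segment ℝ u v,
    right_mem_segment ℝ u v⟩
  apply segment_subset_convexHull <;> simp

/-- If every point of `E ∩ N` can move toward `y` by the factor `δ`, then near `y` everything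
sees `y`. -/
lemma star_near {E N : Set V} {y : V} {δ r : ℝ} (hδ0 : 0 < δ) (hδ1 : δ < 1)
    (hE : IsClosed E)
    (hN : ball y r ⊆ N)
    (hmove : ∀ q ∈ E, q ∈ N → ∀ t ∈ Icc (0:ℝ) δ, q + t • (y - q) ∈ E)
    {u : V} (hu : u ∈ E) (hur : u ∈ ball y r) : segment ℝ u y ⊆ E := by
  have hkey : ∀ j : ℕ, ∀ s ∈ Icc ((1 - δ) ^ j) 1, y + s • (u - y) ∈ E := by
    intro j
    induction j with
    | zero =>
      intro s hs
      rw [pow_zero, Icc_self, mem_singleton_iff] at hs
      subst hs
      simpa using hu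
    | succ j ih =>
      intro s hs
      by_cases h : (1 - δ) ^ j ≤ s
      · exact ih s ⟨h, hs.2⟩
      · push Not at h
        have hp : (0:ℝ) < (1 - δ) ^ j := by
          apply pow_pos; linarith
        have hp1 : (1 - δ) ^ j ≤ 1 := pow_le_one₀ (by linarith) (by linarith)
        have hq := ih ((1 - δ) ^ j) ⟨le_rfl, hp1⟩
        have hqN : y + (1 - δ) ^ j • (u - y) ∈ N := by
          apply hN
          rw [mem_ball, dist_eq_norm, add_sub_cancel_left, norm_smul, Real.norm_of_nonneg hp.le]
          rw [mem_ball, dist_eq_norm] at hur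
          calc (1 - δ) ^ j * ‖u - y‖ ≤ 1 * ‖u - y‖ := by gcongr
            _ < r := by rw [one_mul]; exact hur
        have hs1 := hs.1
        rw [pow_succ] at hs1
        have := hmove _ hq hqN (1 - s / (1 - δ) ^ j) ⟨by
          rw [sub_nonneg, div_le_one hp]; exact h.le, by
          rw [sub_le_iff_le_add, ← sub_le_iff_le_add', le_div_iff₀ hp]; linarith⟩
        have e : y + (1 - δ) ^ j • (u - y) + (1 - s / (1 - δ) ^ j) •
            (y - (y + (1 - δ) ^ j • (u - y))) = y + s • (u - y) := by
          have e1 : y - (y + (1 - δ) ^ j • (u - y)) = -((1 - δ) ^ j • (u - y)) := by abel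
          rw [e1, smul_neg, smul_smul, sub_mul, one_mul, div_mul_cancel₀ _ hp.ne', sub_smul]
          abel
        rwa [e] at this
  intro z hz
  obtain ⟨a, b, ha, hb, hab, rfl⟩ := hz
  have e : a • u + b • y = y + a • (u - y) := by
    rw [smul_sub]
    have : b = 1 - a := by linarith
    rw [this, sub_smul, one_smul]
    abel
  rw [e]
  rcases eq_or_lt_of_le ha with h0 | h0
  · rw [← h0, zero_smul, add_zero]
    -- y is a limit
    have hlim : Filter.Tendsto (fun j : ℕ => y + (1 - δ) ^ j • (u - y)) Filter.atTop (𝓝 y) := by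
      have h1 : Filter.Tendsto (fun j : ℕ => (1 - δ) ^ j) Filter.atTop (𝓝 0) :=
        tendsto_pow_atTop_nhds_zero_of_lt_one (by linarith) (by linarith)
      have h2 := (h1.smul_const (u - y)).const_add y
      simpa using h2
    refine hE.mem_of_tendsto hlim (Filter.Eventually.of_forall fun j => ?_)
    exact hkey j _ ⟨le_rfl, pow_le_one₀ (by linarith) (by linarith)⟩
  · obtain ⟨j, hj⟩ := exists_pow_lt_of_lt_one h0 (show (1 - δ) < 1 by linarith)
    exact hkey j a ⟨hj.le, by linarith⟩

/-- Local connectivity within triangles with apex `y`. -/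
theorem local_joined {E N : Set V} {y : V} {δ : ℝ} (hδ0 : 0 < δ) (hδ1 : δ < 1)
    (hE : IsClosed E) (hNo : IsOpen N)
    (hconv : ∀ x ∈ E, x ∉ N → ∃ r > 0, Convex ℝ (E ∩ ball x r))
    (hmove : ∀ q ∈ E, q ∈ N → ∀ t ∈ Icc (0:ℝ) δ, q + t • (y - q) ∈ E) :
    ∀ x ∈ E, ∃ r > 0, ∀ u ∈ E ∩ ball x r, ∀ v ∈ E ∩ ball x r, Joined3 E y u v := by
  by_contra hcon
  push Not at hcon
  obtain ⟨x, hxE, hx⟩ := hcon
  -- good at y
  have hgy : y ∈ E → ∃ r > 0, ∀ u ∈ E ∩ ball y r, ∀ v ∈ E ∩ ball y r, Joined3 E y u v := by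
    intro hy
    by_cases hyN : y ∈ N
    · obtain ⟨r, hr, hrN⟩ := Metric.isOpen_iff.1 hNo y hyN
      refine ⟨r, hr, fun u hu v hv => ?_⟩
      have h1 := star_near hδ0 hδ1 hE hrN hmove hu.1 hu.2
      have h2 := star_near hδ0 hδ1 hE hrN hmove hv.1 hv.2
      refine ⟨segment ℝ u y ∪ segment ℝ v y, union_subset h1 h2, union_subset ?_ ?_, ?_, ?_, ?_⟩
      · apply segment_subset_convexHull <;> simp
      · apply segment_subset_convexHull <;> simp
      · exact IsPreconnected.union y (right_mem_segment ℝ u y) (right_mem_segment ℝ v y)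
          (convex_segment u y).isPreconnected (convex_segment v y).isPreconnected
      · exact Or.inl (left_mem_segment ℝ u y)
      · exact Or.inr (left_mem_segment ℝ v y)
    · obtain ⟨r, hr, hc⟩ := hconv y hy hyN
      refine ⟨r, hr, fun u hu v hv => joined3_of_segment ?_⟩
      exact (hc.segment_subset hu hv).trans inter_subset_left
  -- the bad sequence
  have hbad : ∀ j : ℕ, y + (1 - δ) ^ j • (x - y) ∈ E ∧
      ∀ r > 0, ∃ u ∈ E ∩ ball (y + (1 - δ) ^ j • (x - y)) r,
        ∃ v ∈ E ∩ ball (y + (1 - δ) ^ j • (x - y)) r, ¬ Joined3 E y u v := by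
    intro j
    induction j with
    | zero => simpa using ⟨hxE, hx⟩
    | succ j ih =>
      obtain ⟨hE1, hb1⟩ := ih
      set p := y + (1 - δ) ^ j • (x - y) with hp
      have hpN : p ∈ N := by
        by_contra hpN
        obtain ⟨r, hr, hc⟩ := hconv p hE1 hpN
        obtain ⟨u, hu, v, hv, huv⟩ := hb1 r hr
        exact huv (joined3_of_segment ((hc.segment_subset hu hv).trans inter_subset_left))
      have e : y + (1 - δ) ^ (j + 1) • (x - y) = p + δ • (y - p) := by
        rw [hp, pow_succ]
        have e1 : y - (y + (1 - δ) ^ j • (x - y)) = -((1 - δ) ^ j • (x - y)) := by abel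
        rw [e1, mul_sub, mul_one, sub_smul, smul_neg, smul_smul, mul_comm δ]
        abel
      rw [e]
      refine ⟨hmove p hE1 hpN δ ⟨hδ0.le, le_rfl⟩, ?_⟩
      intro r hr
      obtain ⟨r', hr', hrN⟩ := Metric.isOpen_iff.1 hNo p hpN
      by_contra hcon
      push Not at hcon
      obtain ⟨u, hu, v, hv, huv⟩ := hb1 (min r r') (lt_min hr hr')
      apply huv
      have hmv : ∀ w ∈ E ∩ ball p (min r r'), w + δ • (y - w) ∈ E ∩ ball (p + δ • (y - p)) r ∧
          segment ℝ w (w + δ • (y - w)) ⊆ E := by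
        intro w hw
        have hwN : w ∈ N := hrN (ball_subset_ball (min_le_right _ _) hw.2)
        refine ⟨⟨hmove w hw.1 hwN δ ⟨hδ0.le, le_rfl⟩, ?_⟩, ?_⟩
        · have h1 : dist w p < r := lt_of_lt_of_le hw.2 (min_le_left _ _)
          rw [mem_ball, dist_eq_norm]
          rw [dist_eq_norm] at h1
          have e2 : w + δ • (y - w) - (p + δ • (y - p)) = (1 - δ) • (w - p) := by
            rw [sub_smul, one_smul, smul_sub, smul_sub, smul_sub]
            abel
          rw [e2, norm_smul, Real.norm_of_nonneg (by linarith)]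
          calc (1 - δ) * ‖w - p‖ ≤ 1 * ‖w - p‖ := by gcongr; linarith
            _ < r := by rw [one_mul]; exact h1
        · intro z hz
          rw [segment_eq_image'] at hz
          obtain ⟨t, ht, rfl⟩ := hz
          have := hmove w hw.1 hwN (t * δ) ⟨mul_nonneg ht.1 hδ0.le, by nlinarith [ht.2]⟩
          simpa [smul_smul, add_sub_cancel_left] using this
      obtain ⟨hu1, hu2⟩ := hmv u hu
      obtain ⟨hv1, hv2⟩ := hmv v hv
      obtain ⟨K, hKE, hKc, hKp, huK, hvK⟩ := hcon _ hu1 _ hv1
      refine ⟨segment ℝ u (u + δ • (y - u)) ∪ K ∪ segment ℝ v (v + δ • (y - v)),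
        union_subset (union_subset hu2 hKE) hv2, ?_, ?_, Or.inl (Or.inl (left_mem_segment ℝ _ _)),
        Or.inr (left_mem_segment ℝ _ _)⟩
      · have hu3 : u + δ • (y - u) ∈ convexHull ℝ {y, u, v} := by
          have : segment ℝ u y ⊆ convexHull ℝ {y, u, v} := by
            apply segment_subset_convexHull <;> simp
          apply this
          rw [segment_eq_image']
          exact ⟨δ, ⟨hδ0.le, hδ1.le⟩, rfl⟩
        have hv3 : v + δ • (y - v) ∈ convexHull ℝ {y, u, v} := by
          have : segment ℝ v y ⊆ convexHull ℝ {y, u, v} := by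
            apply segment_subset_convexHull <;> simp
          apply this
          rw [segment_eq_image']
          exact ⟨δ, ⟨hδ0.le, hδ1.le⟩, rfl⟩
        have hcv := convex_convexHull ℝ ({y, u, v} : Set V)
        have hy3 : y ∈ convexHull ℝ ({y, u, v} : Set V) := subset_convexHull ℝ _ (by simp)
        have huu : u ∈ convexHull ℝ ({y, u, v} : Set V) := subset_convexHull ℝ _ (by simp)
        have hvv : v ∈ convexHull ℝ ({y, u, v} : Set V) := subset_convexHull ℝ _ (by simp)
        refine union_subset (union_subset (hcv.segment_subset huu hu3) ?_)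
          (hcv.segment_subset hvv hv3)
        exact hKc.trans (tri_mem hcv hy3 hu3 hv3)
      · refine IsPreconnected.union (v + δ • (y - v)) (Or.inr hvK) (right_mem_segment ℝ _ _)
          ?_ (convex_segment _ _).isPreconnected
        exact IsPreconnected.union (u + δ • (y - u)) (right_mem_segment ℝ _ _) huK
          (convex_segment _ _).isPreconnected hKp
  have hlim : Filter.Tendsto (fun j : ℕ => y + (1 - δ) ^ j • (x - y)) Filter.atTop (𝓝 y) := by
    have h1 : Filter.Tendsto (fun j : ℕ => (1 - δ) ^ j) Filter.atTop (𝓝 0) :=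
      tendsto_pow_atTop_nhds_zero_of_lt_one (by linarith) (by linarith)
    have h2 := (h1.smul_const (x - y)).const_add y
    simpa using h2
  have hyE : y ∈ E := hE.mem_of_tendsto hlim (Filter.Eventually.of_forall fun j => (hbad j).1)
  obtain ⟨r, hr, hg⟩ := hgy hyE
  obtain ⟨j, hj⟩ := ((Metric.tendsto_nhds.1 hlim (r / 2) (by positivity)).exists)
  obtain ⟨u, hu, v, hv, huv⟩ := (hbad j).2 (r / 2) (by positivity)
  apply huv
  have hsub : ball (y + (1 - δ) ^ j • (x - y)) (r / 2) ⊆ ball y r := by
    apply ball_subset_ball'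
    linarith
  exact hg u ⟨hu.1, hsub hu.2⟩ v ⟨hv.1, hsub hv.2⟩

end Loc

end Pool.Agent.U269
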