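import Mathlib
import Pool.Agent.U269.StarB

set_option autoImplicit false

namespace Pool.Agent.U269

open Set Metric Topology

section Main

variable {V : Type*} [NormedAddCommGroup V] [NormedSpace ℝ V]

omit [NormedSpace ℝ V] in
/-- Limit step: if `a` and `b` are joined by a preconnected subset of `E ∩ {g ≤ c}` for every
`c > c0`, then also for `c = c0`. -/
lemma limit_joined {E : Set V} (hE : IsCompact E) {g : V → ℝ} (hg : Continuous g) {a b : V}
    {c0 : ℝ} (ha : a ∈ E ∧ g a ≤ c0) (hb : b ∈ E ∧ g b ≤ c0)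
    (h : ∀ c > c0, ∃ K ⊆ E ∩ {v | g v ≤ c}, IsPreconnected K ∧ a ∈ K ∧ b ∈ K) :
    ∃ K ⊆ E ∩ {v | g v ≤ c0}, IsPreconnected K ∧ a ∈ K ∧ b ∈ K := by
  classical
  set F : Set V := E ∩ {v | g v ≤ c0} with hF
  have hFc : IsCompact F := hE.inter_right (isClosed_le hg continuous_const)
  by_contra hcon
  push Not at hcon
  have : CompactSpace F := isCompact_iff_compactSpace.1 hFc
  set a' : F := ⟨a, ha⟩ with ha'
  set b' : F := ⟨b, hb⟩ with hb'
  have hnot : b' ∉ connectedComponent a' := by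
    intro hmem
    apply hcon (Subtype.val '' connectedComponent a')
    · rintro _ ⟨x, _, rfl⟩
      exact x.2
    · exact isPreconnected_connectedComponent.image _ continuous_subtype_val.continuousOn
    · exact ⟨a', mem_connectedComponent, rfl⟩
    · exact ⟨b', hmem, rfl⟩
  rw [connectedComponent_eq_iInter_isClopen, mem_iInter] at hnot
  push Not at hnot
  obtain ⟨⟨s, hs, has⟩, hbs⟩ := hnot
  simp only at hbs
  have hA : IsCompact (Subtype.val '' s : Set V) := (hs.1.isCompact).image continuous_subtype_val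
  have hB : IsCompact (Subtype.val '' sᶜ : Set V) :=
    (hs.compl.1.isCompact).image continuous_subtype_val
  have hdisj : Disjoint (Subtype.val '' s : Set V) (Subtype.val '' sᶜ) := by
    rw [Set.disjoint_left]
    rintro _ ⟨x, hx, rfl⟩ ⟨y, hy, hxy⟩
    rw [Subtype.val_injective hxy] at hy
    exact hy hx
  obtain ⟨U1, U2, hU1, hU2, hAU, hBU, hUU⟩ := SeparatedNhds.of_isCompact_isCompact hA hB hdisj
  -- some level set lies in the union
  have hlev : ∃ c > c0, E ∩ {v | g v ≤ c} ⊆ U1 ∪ U2 := by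
    have hD : IsCompact (E \ (U1 ∪ U2)) := hE.diff (hU1.union hU2)
    rcases (E \ (U1 ∪ U2)).eq_empty_or_nonempty with he | hne
    · refine ⟨c0 + 1, by linarith, fun x hx => ?_⟩
      by_contra hx2
      have : x ∈ E \ (U1 ∪ U2) := ⟨hx.1, hx2⟩
      rw [he] at this
      exact this
    · obtain ⟨m, hm, hmin⟩ := hD.exists_isMinOn hne hg.continuousOn
      have hm0 : c0 < g m := by
        by_contra hle
        push Not at hle
        have hmF : m ∈ F := ⟨hm.1, hle⟩
        apply hm.2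
        by_cases hms : (⟨m, hmF⟩ : F) ∈ s
        · exact Or.inl (hAU ⟨_, hms, rfl⟩)
        · exact Or.inr (hBU ⟨_, hms, rfl⟩)
      refine ⟨(c0 + g m) / 2, by linarith, fun x hx => ?_⟩
      by_contra hx2
      have h1 : g m ≤ g x := hmin ⟨hx.1, hx2⟩
      have h2 : g x ≤ (c0 + g m) / 2 := hx.2
      linarith
  obtain ⟨c, hc, hcU⟩ := hlev
  obtain ⟨K, hK, hKp, haK, hbK⟩ := h c hc
  obtain ⟨x, _, hx1, hx2⟩ := hKp U1 U2 hU1 hU2 (hK.trans hcU) ⟨a, haK, hAU ⟨a', has, rfl⟩⟩
    ⟨b, hbK, hBU ⟨b', hbs, rfl⟩⟩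
  exact (Set.disjoint_left.1 hUU) hx1 hx2

omit [NormedSpace ℝ V] in
/-- In a preconnected set with two points, no point is isolated. -/
lemma exists_near {K : Set V} (hK : IsPreconnected K) {v w : V} (hv : v ∈ K) (hw : w ∈ K)
    (hne : v ≠ w) {ε : ℝ} (hε : 0 < ε) : ∃ z ∈ K, z ≠ v ∧ dist z v < ε := by
  by_contra hcon
  push Not at hcon
  obtain ⟨x, hxK, hx1, hx2⟩ := hK (ball v ε) (closedBall v (ε / 2))ᶜ isOpen_ball
    isClosed_closedBall.isOpen_compl (by
      intro x hx
      by_cases h : x = v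
      · left; rw [h]; exact mem_ball_self hε
      · right
        rw [mem_compl_iff, mem_closedBall]
        have := hcon x hx h
        linarith) ⟨v, hv, mem_ball_self hε⟩ ⟨w, hw, by
      rw [mem_compl_iff, mem_closedBall]
      have := hcon w hw hne.symm
      linarith⟩
  by_cases h : x = v
  · rw [h] at hx2
    apply hx2
    exact mem_closedBall_self (by positivity)
  · have := hcon x hxK h
    rw [mem_ball] at hx1
    linarith

/-- Descent step. -/
lemma descent {E C : Set V} {y a b : V}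
    (hJ : ∀ x ∈ E, ∃ r > 0, ∀ u ∈ E ∩ ball x r, ∀ v ∈ E ∩ ball x r, Joined3 E y u v)
    (hC : Convex ℝ C) (hy : y ∈ C) (haC : a ∈ C) (hbC : b ∈ C) {c : ℝ} (hc : 0 < c)
    {K : Set V} (hKE : K ⊆ E ∩ {v | infDist v C ≤ c}) (hKp : IsPreconnected K)
    (haK : a ∈ K) (hbK : b ∈ K) :
    ∃ c', 0 ≤ c' ∧ c' < c ∧ ∃ K' ⊆ E ∩ {v | infDist v C ≤ c'}, IsPreconnected K' ∧ a ∈ K' ∧
      b ∈ K' := by
  set A : Set V := {v | ∃ c', 0 ≤ c' ∧ c' < c ∧ ∃ K' ⊆ E ∩ {v | infDist v C ≤ c'},
    IsPreconnected K' ∧ a ∈ K' ∧ v ∈ K'} with hA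
  have haA : a ∈ A := by
    refine ⟨0, le_rfl, hc, {a}, ?_, isPreconnected_singleton, rfl, rfl⟩
    rintro x rfl
    exact ⟨(hKE haK).1, by simp [infDist_zero_of_mem haC]⟩
  -- extension of A
  have hext : ∀ w ∈ A, ∀ z, infDist z C < c → Joined3 E y z w → z ∈ A := by
    rintro w ⟨c1, hc10, hc1, K1, hK1, hK1p, haK1, hwK1⟩ z hz ⟨K2, hK2E, hK2c, hK2p, hzK2, hwK2⟩
    refine ⟨max c1 (infDist z C), le_max_of_le_left hc10, max_lt hc1 hz, K1 ∪ K2, ?_,
      IsPreconnected.union w hwK1 hwK2 hK1p hK2p, Or.inl haK1, Or.inr hzK2⟩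
    apply union_subset
    · intro x hx
      refine ⟨(hK1 hx).1, ?_⟩
      have h5 : infDist x C ≤ c1 := (hK1 hx).2
      exact h5.trans (le_max_left _ _)
    · intro x hx
      refine ⟨hK2E hx, ?_⟩
      obtain ⟨p, q, s, hp, hq, hs, hpqs, rfl⟩ := mem_tri (hK2c hx)
      have h1 := infDist_tri hC hy z w hp hq hs hpqs
      have h2 : infDist w C ≤ c1 := (hK1 hwK1).2
      have h3 : q * infDist z C + s * infDist w C ≤ (q + s) * max c1 (infDist z C) := by
        rw [add_mul]
        gcongr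
        · exact le_max_right _ _
        · exact h2.trans (le_max_left _ _)
      have h4 : (q + s) * max c1 (infDist z C) ≤ 1 * max c1 (infDist z C) := by
        gcongr
        linarith
      show infDist (p • y + q • z + s • w) C ≤ _
      linarith
  -- claim 1
  have hcl : ∀ x ∈ E, ∀ r > 0, (∀ u ∈ E ∩ ball x r, ∀ v ∈ E ∩ ball x r, Joined3 E y u v) →
      ∀ w ∈ A, w ∈ ball x r → ∀ v ∈ E, infDist v C ≤ c → v ∈ ball x r → v ∈ closure A := by
    intro x hx r hr hJx w hwA hwr v hvE hvc hvr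
    have hwE : w ∈ E := by
      obtain ⟨c1, _, _, K1, hK1, _, _, hwK1⟩ := hwA
      exact (hK1 hwK1).1
    have hwc : infDist w C < c := by
      obtain ⟨c1, _, hc1, K1, hK1, _, _, hwK1⟩ := hwA
      exact lt_of_le_of_lt (hK1 hwK1).2 hc1
    by_cases hvw : v = w
    · rw [hvw]; exact subset_closure hwA
    · rw [Metric.mem_closure_iff]
      intro ε hε
      obtain ⟨K1, hK1E, hK1c, hK1p, hvK1, hwK1⟩ := hJx v ⟨hvE, hvr⟩ w ⟨hwE, hwr⟩
      have hρ : 0 < min ε (r - dist v x) := lt_min hε (by rw [mem_ball] at hvr; linarith)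
      obtain ⟨z, hzK1, hzv, hzd⟩ := exists_near hK1p hvK1 hwK1 hvw hρ
      refine ⟨z, ?_, by rw [dist_comm]; exact lt_of_lt_of_le hzd (min_le_left _ _)⟩
      have hzr : z ∈ ball x r := by
        rw [mem_ball]
        have h1 := dist_triangle z v x
        have h2 := lt_of_lt_of_le hzd (min_le_right _ _)
        linarith
      apply hext w hwA z _ (hJx z ⟨hK1E hzK1, hzr⟩ w ⟨hwE, hwr⟩)
      obtain ⟨p, q, s, hp, hq, hs, hpqs, hz⟩ := mem_tri (hK1c hzK1)
      rw [← hz]
      have h1 := infDist_tri hC hy v w hp hq hs hpqs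
      have hw0 : 0 ≤ infDist w C := infDist_nonneg
      rcases eq_or_lt_of_le hs with h0 | h0
      · have hq1 : q < 1 := by
          rcases lt_or_eq_of_le (show q ≤ 1 by linarith) with h | h
          · exact h
          · exfalso
            apply hzv
            have hp0 : p = 0 := by linarith
            rw [← hz, ← h0, h, hp0]
            simp
        calc _ ≤ _ := h1
          _ = q * infDist v C := by rw [← h0]; ring
          _ ≤ q * c := by gcongr
          _ < 1 * c := by gcongr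
          _ = c := one_mul c
      · calc _ ≤ _ := h1
          _ < q * c + s * c := by
            have h2 : q * infDist v C ≤ q * c := by gcongr
            have h3 : s * infDist w C < s * c := by gcongr
            linarith
          _ ≤ 1 * c := by
            rw [← add_mul]
            gcongr
            linarith
          _ = c := one_mul c
  -- K is inside closure A
  have hKA : K ⊆ closure A := by
    by_contra hnot
    rw [not_subset] at hnot
    obtain ⟨k, hkK, hkA⟩ := hnot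
    -- open sets
    choose! r hr hJr using hJ
    set U : Set V := ⋃ x ∈ K ∩ closure A, ball x (r x) with hU
    obtain ⟨z, hzK, hzU, hzA⟩ := hKp U (closure A)ᶜ (isOpen_biUnion fun x _ => isOpen_ball)
      isClosed_closure.isOpen_compl (by
        intro x hx
        by_cases h : x ∈ closure A
        · left
          exact mem_biUnion (⟨hx, h⟩ : x ∈ K ∩ closure A) (mem_ball_self (hr x (hKE hx).1))
        · right; exact h)
      ⟨a, haK, mem_biUnion (⟨haK, subset_closure haA⟩ : a ∈ K ∩ closure A)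
        (mem_ball_self (hr a (hKE haK).1))⟩
      ⟨k, hkK, hkA⟩
    rw [hU, mem_iUnion₂] at hzU
    obtain ⟨x, ⟨hxK, hxA⟩, hzx⟩ := hzU
    apply hzA
    have hxE := (hKE hxK).1
    obtain ⟨w, hw, hwd⟩ := Metric.mem_closure_iff.1 hxA (r x) (hr x hxE)
    exact hcl x hxE (r x) (hr x hxE) (hJr x hxE) w hw (by rw [mem_ball, dist_comm]; exact hwd)
      z (hKE hzK).1 (hKE hzK).2 hzx
  -- b is in A
  have hbE : b ∈ E := (hKE hbK).1
  obtain ⟨r, hr, hJb⟩ := hJ b hbE
  obtain ⟨w, hw, hwd⟩ := Metric.mem_closure_iff.1 (hKA hbK) r hr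
  have hwE : w ∈ E := by
    obtain ⟨c1, _, _, K1, hK1, _, _, hwK1⟩ := hw
    exact (hK1 hwK1).1
  exact hext w hw b (by rw [infDist_zero_of_mem hbC]; exact hc)
    (hJb b ⟨hbE, mem_ball_self hr⟩ w ⟨hwE, by rw [mem_ball, dist_comm]; exact hwd⟩)

/-- The main connectivity theorem. -/
theorem preconnected_inter {E : Set V} (hE : IsCompact E) (hconn : IsPreconnected E) {y : V}
    (hJ : ∀ x ∈ E, ∃ r > 0, ∀ u ∈ E ∩ ball x r, ∀ v ∈ E ∩ ball x r, Joined3 E y u v)
    {C : Set V} (hC : Convex ℝ C) (hCc : IsClosed C) (hy : y ∈ C) : IsPreconnected (E ∩ C) := by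
  apply isPreconnected_of_forall_pair
  rintro a ⟨haE, haC⟩ b ⟨hbE, hbC⟩
  set g : V → ℝ := fun v => infDist v C with hg
  have hgc : Continuous g := continuous_infDist_pt C
  set S : Set ℝ := {c | 0 ≤ c ∧ ∃ K ⊆ E ∩ {v | g v ≤ c}, IsPreconnected K ∧ a ∈ K ∧ b ∈ K} with hS
  have hSne : S.Nonempty := by
    obtain ⟨m, hm, hmax⟩ := hE.exists_isMaxOn ⟨a, haE⟩ hgc.continuousOn
    exact ⟨g m, infDist_nonneg, E, fun x hx => ⟨hx, hmax hx⟩, hconn, haE, hbE⟩
  have hSb : BddBelow S := ⟨0, fun c hc => hc.1⟩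
  have hc0 : 0 ≤ sInf S := le_csInf hSne fun c hc => hc.1
  have hga : g a = 0 := infDist_zero_of_mem haC
  have hgb : g b = 0 := infDist_zero_of_mem hbC
  have hlim : ∃ K ⊆ E ∩ {v | g v ≤ sInf S}, IsPreconnected K ∧ a ∈ K ∧ b ∈ K := by
    apply limit_joined hE hgc ⟨haE, by rw [hga]; exact hc0⟩ ⟨hbE, by rw [hgb]; exact hc0⟩
    intro c hc
    obtain ⟨c', hc'S, hc'⟩ := exists_lt_of_csInf_lt hSne hc
    obtain ⟨_, K, hK, hKp, haK, hbK⟩ := hc'S
    exact ⟨K, fun x hx => ⟨(hK hx).1, le_trans (hK hx).2 hc'.le⟩, hKp, haK, hbK⟩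
  obtain ⟨K, hK, hKp, haK, hbK⟩ := hlim
  rcases eq_or_lt_of_le hc0 with h0 | h0
  · refine ⟨K, ?_, haK, hbK, hKp⟩
    intro x hx
    refine ⟨(hK hx).1, ?_⟩
    have h1 : g x ≤ 0 := by rw [h0]; exact (hK hx).2
    have h2 : infDist x C = 0 := le_antisymm h1 infDist_nonneg
    exact (hCc.mem_iff_infDist_zero ⟨y, hy⟩).2 h2
  · exfalso
    obtain ⟨c', hc'0, hc'1, K', hK', hK'p, haK', hbK'⟩ :=
      descent hJ hC hy haC hbC h0 hK hKp haK hbK
    have : sInf S ≤ c' := csInf_le hSb ⟨hc'0, K', hK', hK'p, haK', hbK'⟩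
    linarith

end Main

end Pool.Agent.U269
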