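import Mathlib
import Pool.Agent.U269.StarC

set_option autoImplicit false

namespace Pool.Agent.U269

open Set Metric Topology

section Hull

/-- Compactness of the convex hull of a compact set (after `Pool.Agent.H73R3.compact_hull` of the
starting files). -/
theorem compact_hull {E : Type*} [NormedAddCommGroup E] [NormedSpace ℝ E]
    [FiniteDimensional ℝ E] {s : Set E} (hs : IsCompact s) : IsCompact (convexHull ℝ s) := by
  classical
  rcases s.eq_empty_or_nonempty with rfl | ⟨x0, hx0⟩
  · rw [convexHull_empty]
    exact isCompact_empty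
  obtain ⟨n, hn⟩ : ∃ n, n = Module.finrank ℝ E + 1 := ⟨_, rfl⟩
  have hK : IsCompact ((stdSimplex ℝ (Fin n)) ×ˢ (Set.pi Set.univ (fun _ : Fin n => s))) :=
    (isCompact_stdSimplex ℝ (Fin n)).prod (isCompact_univ_pi fun _ => hs)
  have hcont : Continuous (fun p : (Fin n → ℝ) × (Fin n → E) => ∑ i, p.1 i • p.2 i) := by
    refine continuous_finsetSum _ fun i _ => ?_
    exact ((continuous_apply i).comp continuous_fst).smul ((continuous_apply i).comp continuous_snd)
  have heq : convexHull ℝ s = (fun p : (Fin n → ℝ) × (Fin n → E) => ∑ i, p.1 i • p.2 i) ''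
      ((stdSimplex ℝ (Fin n)) ×ˢ (Set.pi Set.univ (fun _ : Fin n => s))) := by
    apply Set.Subset.antisymm
    · intro x hx
      obtain ⟨ι, hι, z, w, hz, hai, hw0, hw1, hwz⟩ := eq_pos_convex_span_of_mem_convexHull hx
      have hcard : Fintype.card ι ≤ Fintype.card (Fin n) := by
        have h1 := hai.card_le_finrank_succ
        have h2 := Submodule.finrank_le (vectorSpan ℝ (Set.range z))
        rw [Fintype.card_fin, hn]
        omega
      obtain ⟨e⟩ := Function.Embedding.nonempty_of_card_le hcard
      refine ⟨(Function.extend e w 0, Function.extend e z (fun _ => x0)), ⟨⟨?_, ?_⟩, ?_⟩, ?_⟩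
      · intro j
        show (0 : ℝ) ≤ Function.extend e w 0 j
        by_cases hj : ∃ i, e i = j
        · obtain ⟨i, rfl⟩ := hj
          rw [e.injective.extend_apply]
          exact (hw0 i).le
        · rw [Function.extend_apply' _ _ _ hj]
          exact le_rfl
      · rw [← hw1]
        symm
        refine Fintype.sum_of_injective e e.injective _ _ ?_ ?_
        · intro j hj
          show Function.extend e w 0 j = 0
          rw [Function.extend_apply' _ _ _ hj]
          rfl
        · intro i
          show w i = Function.extend e w 0 (e i)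
          rw [e.injective.extend_apply]
      · intro j _
        by_cases hj : ∃ i, e i = j
        · obtain ⟨i, rfl⟩ := hj
          show Function.extend e z (fun _ => x0) (e i) ∈ s
          rw [e.injective.extend_apply]
          exact hz ⟨i, rfl⟩
        · show Function.extend e z (fun _ => x0) j ∈ s
          rw [Function.extend_apply' _ _ _ hj]
          exact hx0
      · rw [← hwz]
        symm
        refine Fintype.sum_of_injective e e.injective _ _ ?_ ?_
        · intro j hj
          show Function.extend e w 0 j • Function.extend e z (fun _ => x0) j = 0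
          rw [Function.extend_apply' w _ _ hj]
          simp
        · intro i
          show w i • z i = Function.extend e w 0 (e i) • Function.extend e z (fun _ => x0) (e i)
          rw [e.injective.extend_apply, e.injective.extend_apply]
    · rintro _ ⟨⟨w, z⟩, ⟨⟨hw0, hw1⟩, hz⟩, rfl⟩
      refine (convex_convexHull ℝ s).sum_mem (fun i _ => hw0 i) hw1 (fun i _ => ?_)
      exact subset_convexHull ℝ s (hz i (Set.mem_univ i))
  rw [heq]
  exact hK.image hcont

end Hull

section Move

variable {V : Type*} [NormedAddCommGroup V] [NormedSpace ℝ V]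

/-- If every point of `S` sees `E ∩ ball x r`, then points of `E` near `x` can move a definite
distance toward each point of the convex hull of `S`. -/
lemma move_hull {E S : Set V} {x : V} {r D : ℝ} (hSE : S ⊆ E)
    (hsee : ∀ p ∈ S, ∀ q ∈ E, q ∈ ball x r → segment ℝ p q ⊆ E)
    (hD : ∀ p ∈ E, ∀ q ∈ E, dist p q ≤ D) {w : V} (hw : w ∈ convexHull ℝ S) :
    (∀ q ∈ E, dist w q ≤ D) ∧
      ∀ q ∈ E, ∀ u : ℝ, 0 ≤ u → dist q x + u * D < r → (1 + u)⁻¹ • (q + u • w) ∈ E := by
  have hconv : Convex ℝ {w : V | (∀ q ∈ E, dist w q ≤ D) ∧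
      ∀ q ∈ E, ∀ u : ℝ, 0 ≤ u → dist q x + u * D < r → (1 + u)⁻¹ • (q + u • w) ∈ E} := by
    rintro w1 ⟨hd1, hm1⟩ w2 ⟨hd2, hm2⟩ a b ha hb hab
    refine ⟨?_, ?_⟩
    · intro q hq
      have : convexHull ℝ {w1, w2} ⊆ closedBall q D := by
        apply convexHull_min _ (convex_closedBall q D)
        intro z hz
        rcases hz with rfl | hz
        · exact hd1 q hq
        · rw [mem_singleton_iff] at hz
          rw [hz]
          exact hd2 q hq
      apply this
      rw [convexHull_pair]
      exact ⟨a, b, ha, hb, hab, rfl⟩
    · intro q hq u hu hur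
      have hD0 : 0 ≤ D := le_trans dist_nonneg (hD q hq q hq)
      set u1 := u * a with hu1
      have hu10 : 0 ≤ u1 := by positivity
      have hu1p : (0:ℝ) < 1 + u1 := by linarith
      set u2 := u * b / (1 + u1) with hu2
      have hu20 : 0 ≤ u2 := by positivity
      have hu2p : (0:ℝ) < 1 + u2 := by linarith
      have hsum : u1 + u2 ≤ u := by
        have h1 : u2 ≤ u * b := by
          rw [hu2]
          apply div_le_self (by positivity)
          linarith
        calc u1 + u2 ≤ u * a + u * b := by linarith
          _ = u := by rw [← mul_add, hab, mul_one]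
      have hprod : (1 + u1) * (1 + u2) = 1 + u := by
        rw [hu2]
        field_simp
        rw [hu1]
        linear_combination u * hab
      have hq1 : (1 + u1)⁻¹ • (q + u1 • w1) ∈ E := by
        apply hm1 q hq u1 hu10
        have : u1 * D ≤ u * D := by
          gcongr
          linarith
        linarith
      have hdist : dist ((1 + u1)⁻¹ • (q + u1 • w1)) x ≤ dist q x + u1 * D := by
        have h1 : dist ((1 + u1)⁻¹ • (q + u1 • w1)) q ≤ u1 * D := by
          have e : (1 + u1)⁻¹ • (q + u1 • w1) - q = ((1 + u1)⁻¹ * u1) • (w1 - q) := by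
            have h3 : q = (1 + u1)⁻¹ • ((1 + u1) • q) := by
              rw [smul_smul, inv_mul_cancel₀ hu1p.ne', one_smul]
            calc (1 + u1)⁻¹ • (q + u1 • w1) - q
                = (1 + u1)⁻¹ • (q + u1 • w1) - (1 + u1)⁻¹ • ((1 + u1) • q) := by rw [← h3]
              _ = (1 + u1)⁻¹ • (u1 • (w1 - q)) := by
                rw [← smul_sub]
                congr 1
                rw [add_smul, one_smul, smul_sub]
                abel
              _ = ((1 + u1)⁻¹ * u1) • (w1 - q) := by rw [smul_smul]
          rw [dist_eq_norm, e, norm_smul, Real.norm_of_nonneg (by positivity), ← dist_eq_norm]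
          calc (1 + u1)⁻¹ * u1 * dist w1 q ≤ 1 * u1 * D := by
                gcongr
                · exact inv_le_one_of_one_le₀ (by linarith)
                · exact hd1 q hq
            _ = u1 * D := by ring
        have := dist_triangle ((1 + u1)⁻¹ • (q + u1 • w1)) q x
        linarith
      have hfin := hm2 _ hq1 u2 hu20 (by
        have : (u1 + u2) * D ≤ u * D := by gcongr
        linarith)
      have e : (1 + u2)⁻¹ • ((1 + u1)⁻¹ • (q + u1 • w1) + u2 • w2) =
          (1 + u)⁻¹ • (q + u • (a • w1 + b • w2)) := by
        have e1 : u2 • w2 = (1 + u1)⁻¹ • ((u * b) • w2) := by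
          rw [smul_smul, hu2, div_eq_inv_mul]
        rw [e1, ← smul_add, smul_smul, ← mul_inv, mul_comm (1 + u2), hprod]
        congr 1
        rw [smul_add, smul_smul, smul_smul, hu1, add_assoc]
      rwa [e] at hfin
  have hsub : S ⊆ {w : V | (∀ q ∈ E, dist w q ≤ D) ∧
      ∀ q ∈ E, ∀ u : ℝ, 0 ≤ u → dist q x + u * D < r → (1 + u)⁻¹ • (q + u • w) ∈ E} := by
    intro p hp
    refine ⟨fun q hq => hD p (hSE hp) q hq, fun q hq u hu hur => ?_⟩
    have hD0 : 0 ≤ D := le_trans dist_nonneg (hD q hq q hq)
    have hqr : q ∈ ball x r := by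
      rw [mem_ball]
      have : 0 ≤ u * D := by positivity
      linarith
    apply hsee p hp q hq hqr
    have h1u : (0:ℝ) < 1 + u := by linarith
    refine ⟨(1 + u)⁻¹ * u, (1 + u)⁻¹, by positivity, by positivity, ?_, ?_⟩
    · field_simp
      ring
    · rw [smul_add, mul_smul, add_comm]
  exact convexHull_min hsub hconv hw

end Move

section End

variable {V : Type*} [NormedAddCommGroup V] [InnerProductSpace ℝ V]

/-- If `E ∩ C` is preconnected for each closed convex set `C` containing `y`, then `y ∈ E` as
soon as `y` lies in the convex hull of `E`. -/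
lemma mem_of_mem_hull {E : Set V} {y : V}
    (hP : ∀ C : Set V, Convex ℝ C → IsClosed C → y ∈ C → IsPreconnected (E ∩ C))
    (hy : y ∈ convexHull ℝ E) : y ∈ E := by
  by_contra hyE
  -- no two points of E on opposite sides of y
  have hopp : ∀ e1 ∈ E, ∀ e2 ∈ E, y ∉ segment ℝ e1 e2 := by
    intro e1 he1 e2 he2 hys
    have hcl : IsClosed (segment ℝ e1 e2) := by
      rw [← convexHull_pair]
      exact ((Set.toFinite {e1, e2}).isCompact_convexHull ℝ).isClosed
    have hp := hP (segment ℝ e1 e2) (convex_segment e1 e2) hcl hys
    -- linear functional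
    set n := e2 - e1 with hn
    have hne : n ≠ 0 := by
      intro h
      rw [hn, sub_eq_zero] at h
      rw [h, segment_same, mem_singleton_iff] at hys
      exact hyE (hys ▸ he1)
    have hcont : Continuous (fun z : V => inner ℝ n (z - y)) := by fun_prop
    obtain ⟨a, b, ha, hb, hab, hyab⟩ := hys
    have hb' : a = 1 - b := by linarith
    have e1y : e1 - y = (-b) • n := by
      rw [← hyab, hn, hb']
      simp only [sub_smul, one_smul, neg_smul, smul_sub]
      abel
    have e2y : e2 - y = a • n := by
      have hb2 : b = 1 - a := by linarith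
      rw [← hyab, hn, hb2]
      simp only [sub_smul, one_smul, smul_sub]
      abel
    have hnn : 0 < inner ℝ n n := by
      rw [real_inner_self_eq_norm_sq]
      have := norm_pos_iff.2 hne
      positivity
    have h1 : inner ℝ n (e1 - y) ≤ 0 := by
      rw [e1y, inner_smul_right]
      nlinarith
    have h2 : 0 ≤ inner ℝ n (e2 - y) := by
      rw [e2y, inner_smul_right]
      positivity
    have hmem1 : e1 ∈ E ∩ segment ℝ e1 e2 := ⟨he1, left_mem_segment ℝ _ _⟩
    have hmem2 : e2 ∈ E ∩ segment ℝ e1 e2 := ⟨he2, right_mem_segment ℝ _ _⟩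
    obtain ⟨z, hz, hz0⟩ := hp.intermediate_value hmem1 hmem2 hcont.continuousOn
      (show (0:ℝ) ∈ Icc _ _ from ⟨h1, h2⟩)
    obtain ⟨s, t, hs, ht, hst, hz2⟩ := hz.2
    have : z = y := by
      have ez : z - y = (t * a - s * b) • n := by
        have : z - y = s • (e1 - y) + t • (e2 - y) := by
          rw [← hz2, smul_sub, smul_sub]
          have : y = (s + t) • y := by rw [hst, one_smul]
          nth_rewrite 1 [this]
          rw [add_smul]
          abel
        rw [this, e1y, e2y, smul_smul, smul_smul, ← add_smul]
        congr 1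
        ring
      simp only at hz0
      rw [ez, inner_smul_right] at hz0
      have : t * a - s * b = 0 := by
        rcases mul_eq_zero.1 hz0 with h | h
        · exact h
        · exact absurd h hnn.ne'
      rw [this, zero_smul, sub_eq_zero] at ez
      exact ez
    exact hyE (this ▸ hz.1)
  -- directions
  have hdir : ∀ e1 ∈ E, ∀ e2 ∈ E, ∀ α β : ℝ, 0 < α → 0 < β → ∃ e ∈ E, ∃ t > (0 : ℝ),
      α • (e1 - y) + β • (e2 - y) = t • (e - y) := by
    intro e1 he1 e2 he2 α β hα hβ
    set m := α • (e1 - y) + β • (e2 - y) with hm
    have hm0 : m ≠ 0 := by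
      intro h0
      apply hopp e1 he1 e2 he2
      have hs : 0 < α + β := by linarith
      refine ⟨α / (α + β), β / (α + β), by positivity, by positivity, by field_simp, ?_⟩
      have : α • e1 + β • e2 = (α + β) • y := by
        rw [hm] at h0
        have h3 : α • e1 + β • e2 - (α + β) • y = 0 := by
          rw [← h0, smul_sub, smul_sub, add_smul]
          abel
        exact sub_eq_zero.1 h3
      rw [div_eq_inv_mul, div_eq_inv_mul, mul_smul, mul_smul, ← smul_add, this, smul_smul,
        inv_mul_cancel₀ hs.ne', one_smul]
    have hmm : 0 < inner ℝ m m := by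
      rw [real_inner_self_eq_norm_sq]
      have := norm_pos_iff.2 hm0
      positivity
    -- the functional: component of `e1 - y` orthogonal to `m`
    set n := (e1 - y) - (inner ℝ m (e1 - y) / inner ℝ m m) • m with hn
    have hnm : inner ℝ n m = 0 := by
      rw [hn, inner_sub_left, inner_smul_left, real_inner_comm]
      simp only [conj_trivial]
      field_simp
      ring
    by_cases hn0 : n = 0
    · -- parallel
      have hpar : e1 - y = (inner ℝ m (e1 - y) / inner ℝ m m) • m := by
        rw [hn, sub_eq_zero] at hn0
        exact hn0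
      set k := inner ℝ m (e1 - y) / inner ℝ m m with hk
      rcases lt_trichotomy k 0 with hk0 | hk0 | hk0
      · -- opposite: then e2 is on the side of m
        have h2 : e2 - y = ((1 - α * k) / β) • m := by
          have h3 : β • (e2 - y) = (1 - α * k) • m := by
            have : β • (e2 - y) = m - α • (e1 - y) := by rw [hm]; abel
            rw [this, hpar, smul_smul, sub_smul, one_smul]
          rw [div_eq_inv_mul, mul_smul, ← h3, smul_smul, inv_mul_cancel₀ hβ.ne', one_smul]
        have hpos : 0 < (1 - α * k) / β := by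
          apply div_pos _ hβ
          nlinarith
        refine ⟨e2, he2, ((1 - α * k) / β)⁻¹, by positivity, ?_⟩
        rw [h2, smul_smul, inv_mul_cancel₀ hpos.ne', one_smul]
      · exfalso
        rw [hk0, zero_smul, sub_eq_zero] at hpar
        exact hyE (hpar ▸ he1)
      · refine ⟨e1, he1, k⁻¹, by positivity, ?_⟩
        rw [hpar, smul_smul, inv_mul_cancel₀ hk0.ne', one_smul]
    · have hn1 : inner ℝ n (e1 - y) = inner ℝ n n := by
        have h4 : e1 - y = n + (inner ℝ m (e1 - y) / inner ℝ m m) • m := by rw [hn]; abel
        calc inner ℝ n (e1 - y) = inner ℝ n (n + (inner ℝ m (e1 - y) / inner ℝ m m) • m) := by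
              rw [← h4]
          _ = inner ℝ n n := by rw [inner_add_right, inner_smul_right, hnm, mul_zero, add_zero]
      have hnn : 0 < inner ℝ n n := by
        rw [real_inner_self_eq_norm_sq]
        have := norm_pos_iff.2 hn0
        positivity
      have hn2 : β * inner ℝ n (e2 - y) = -(α * inner ℝ n n) := by
        have h3 : inner ℝ n m = α * inner ℝ n (e1 - y) + β * inner ℝ n (e2 - y) := by
          rw [hm, inner_add_right, inner_smul_right, inner_smul_right]
        rw [hnm, hn1] at h3
        linarith
      have hn2' : inner ℝ n (e2 - y) < 0 := by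
        by_contra hge
        push Not at hge
        have h5 : 0 ≤ β * inner ℝ n (e2 - y) := by positivity
        have h6 : 0 < α * inner ℝ n n := by positivity
        linarith
      have hcl : IsClosed (convexHull ℝ {y, e1, e2}) :=
        ((Set.toFinite {y, e1, e2}).isCompact_convexHull ℝ).isClosed
      have hp := hP _ (convex_convexHull ℝ {y, e1, e2}) hcl (subset_convexHull ℝ _ (by simp))
      have hcont : Continuous (fun z : V => inner ℝ n (z - y)) := by fun_prop
      obtain ⟨z, hz, hz0⟩ := hp.intermediate_value
        (⟨he2, subset_convexHull ℝ _ (by simp)⟩ : e2 ∈ E ∩ convexHull ℝ {y, e1, e2})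
        (⟨he1, subset_convexHull ℝ _ (by simp)⟩ : e1 ∈ E ∩ convexHull ℝ {y, e1, e2})
        hcont.continuousOn
        (show (0:ℝ) ∈ Icc _ _ from ⟨hn2'.le, by rw [hn1]; exact hnn.le⟩)
      simp only at hz0
      obtain ⟨p, q, s, hp0, hq0, hs0, hpqs, hz2⟩ := mem_tri hz.2
      have ez : z - y = q • (e1 - y) + s • (e2 - y) := by
        rw [← hz2]
        have : p = 1 - q - s := by linarith
        rw [this]
        simp only [sub_smul, one_smul, smul_sub]
        abel
      have h7 : q * inner ℝ n n + s * inner ℝ n (e2 - y) = 0 := by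
        rw [ez, inner_add_right, inner_smul_right, inner_smul_right, hn1] at hz0
        exact hz0
      have h8 : q * β = s * α := by
        have h9 : (q * β - s * α) * inner ℝ n n = 0 := by
          have : β * (q * inner ℝ n n + s * inner ℝ n (e2 - y)) = 0 := by rw [h7, mul_zero]
          linear_combination this - s * hn2
        rcases mul_eq_zero.1 h9 with h | h
        · linarith
        · exact absurd h hnn.ne'
      have hs1 : 0 < s := by
        rcases eq_or_lt_of_le hs0 with h | h
        · exfalso
          rw [← h, zero_mul] at h8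
          have hq1 : q = 0 := by
            rcases mul_eq_zero.1 h8 with h' | h'
            · exact h'
            · exact absurd h' hβ.ne'
          rw [hq1, ← h] at ez
          simp only [zero_smul, add_zero] at ez
          rw [sub_eq_zero] at ez
          exact hyE (ez ▸ hz.1)
        · exact h
      refine ⟨z, hz.1, β / s, by positivity, ?_⟩
      rw [ez, smul_add, smul_smul, smul_smul, div_mul_cancel₀ _ hs1.ne', hm]
      congr 2
      field_simp
      linarith
  -- the cone is convex and misses 0
  have hS : Convex ℝ {v : V | ∃ e ∈ E, ∃ t > (0 : ℝ), v - y = t • (e - y)} := by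
    intro v1 hv1 v2 hv2 a b ha hb hab
    obtain ⟨e1, he1, t1, ht1, h1⟩ := hv1
    obtain ⟨e2, he2, t2, ht2, h2⟩ := hv2
    rcases eq_or_lt_of_le ha with h0 | h0
    · have : b = 1 := by linarith
      rw [← h0, this, zero_smul, one_smul, zero_add]
      exact ⟨e2, he2, t2, ht2, h2⟩
    rcases eq_or_lt_of_le hb with h0' | h0'
    · have : a = 1 := by linarith
      rw [← h0', this, zero_smul, one_smul, add_zero]
      exact ⟨e1, he1, t1, ht1, h1⟩
    obtain ⟨e, he, t, ht, h⟩ := hdir e1 he1 e2 he2 (a * t1) (b * t2) (by positivity) (by positivity)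
    refine ⟨e, he, t, ht, ?_⟩
    rw [← h, mul_smul, mul_smul, ← h1, ← h2, smul_sub, smul_sub]
    have : y = (a + b) • y := by rw [hab, one_smul]
    nth_rewrite 1 [this]
    rw [add_smul]
    abel
  have hsub : E ⊆ {v : V | ∃ e ∈ E, ∃ t > (0 : ℝ), v - y = t • (e - y)} :=
    fun e he => ⟨e, he, 1, one_pos, by rw [one_smul]⟩
  obtain ⟨e, he, t, ht, h⟩ := convexHull_min hsub hS hy
  rw [sub_self] at h
  rcases smul_eq_zero.1 h.symm with h' | h'
  · exact ht.ne' h'
  · rw [sub_eq_zero] at h'
    exact hyE (h' ▸ he)

/-- If `E ∩ segment y z` is preconnected and contains both ends then it is the whole segment. -/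
lemma segment_of_preconnected {E : Set V} {y z : V} (hy : y ∈ E) (hz : z ∈ E)
    (hp : IsPreconnected (E ∩ segment ℝ y z)) : segment ℝ y z ⊆ E := by
  intro w hw
  by_cases hyz : y = z
  · subst hyz
    rw [segment_same, mem_singleton_iff] at hw
    rw [hw]; exact hy
  set n := z - y with hn
  have hne : n ≠ 0 := sub_ne_zero.2 (Ne.symm hyz)
  have hnn : 0 < inner ℝ n n := by
    rw [real_inner_self_eq_norm_sq]
    have := norm_pos_iff.2 hne
    positivity
  have hcont : Continuous (fun v : V => inner ℝ n (v - y)) := by fun_prop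
  rw [segment_eq_image'] at hw
  obtain ⟨t, ht, rfl⟩ := hw
  obtain ⟨v, hv, hv0⟩ := hp.intermediate_value
    (⟨hy, left_mem_segment ℝ y z⟩ : y ∈ E ∩ segment ℝ y z)
    (⟨hz, right_mem_segment ℝ y z⟩ : z ∈ E ∩ segment ℝ y z) hcont.continuousOn
    (show t * inner ℝ n n ∈ Icc _ _ from ⟨by
      simp only [sub_self, inner_zero_right]
      exact mul_nonneg ht.1 hnn.le, by
      show t * inner ℝ n n ≤ inner ℝ n (z - y)
      rw [← hn]
      nlinarith [ht.2]⟩)
  simp only at hv0
  have hv2 := hv.2
  rw [segment_eq_image'] at hv2
  obtain ⟨s, hs, rfl⟩ := hv2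
  simp only [add_sub_cancel_left] at hv0
  rw [← hn, inner_smul_right] at hv0
  have : s = t := mul_right_cancel₀ hnn.ne' hv0
  rw [this] at hv
  exact hv.1

end End

end Pool.Agent.U269
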