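import Mathlib

set_option autoImplicit false

/-!
# Complete Erdős space has no closed copy of itself that is bounded

`Es` is the set of the points of `ℓ²` all of whose coordinates are `0` or `1 / k`. It is shown that no
nonempty bounded subset of it is clopen (Erdős), and that no closed embedding of it in itself has
bounded range (a form of the theorem of Dijkstra, van Mill and Steprans that it is unstable).
-/

namespace Pool.Agent.U269.Erd

open Topology Filter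

abbrev L2 := lp (fun _ : ℕ => ℝ) 2

/-- complete Erdős space -/
def Es : Set L2 := {x | ∀ i : ℕ, (x : ℕ → ℝ) i = 0 ∨
            ∃ k : ℕ, 0 < k ∧ (x : ℕ → ℝ) i = 1 / (k : ℝ)}

/-- the possible coordinates -/
def E0 : Set ℝ := insert 0 (Set.range (fun n : ℕ => 1 / ((n : ℝ) + 1)))

theorem E0_closed : IsClosed E0 :=
  (tendsto_one_div_add_atTop_nhds_zero_nat (𝕜 := ℝ)).isCompact_insert_range.isClosed

theorem E0_countable : E0.Countable := (Set.countable_range _).insert _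

theorem mem_E0 {t : ℝ} : t ∈ E0 ↔ (t = 0 ∨ ∃ k : ℕ, 0 < k ∧ t = 1 / (k : ℝ)) := by
  constructor
  · rintro (h | ⟨n, rfl⟩)
    · exact Or.inl h
    · exact Or.inr ⟨n + 1, Nat.succ_pos n, by push_cast; rfl⟩
  · rintro (h | ⟨k, hk, rfl⟩)
    · exact Or.inl h
    · refine Or.inr ⟨k - 1, ?_⟩
      have : ((k - 1 : ℕ) : ℝ) + 1 = k := by
        have h2 : k - 1 + 1 = k := Nat.sub_add_cancel hk
        exact_mod_cast h2
      simp only [this]

theorem mem_Es {x : L2} : x ∈ Es ↔ ∀ i, (x : ℕ → ℝ) i ∈ E0 := by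
  simp only [Es, Set.mem_setOf_eq, mem_E0]

theorem coord_cont (i : ℕ) : Continuous (fun x : L2 => (x : ℕ → ℝ) i) := by
  have h := (lp.uniformContinuous_coe (E := fun _ : ℕ => ℝ) (p := 2)).continuous
  exact (continuous_apply i).comp h

theorem Es_closed : IsClosed Es := by
  have : Es = ⋂ i, (fun x : L2 => (x : ℕ → ℝ) i) ⁻¹' E0 := by
    ext x; simp [mem_Es]
  rw [this]
  exact isClosed_iInter fun i => E0_closed.preimage (coord_cont i)

/-- sets that depend on finitely many coordinates and are clopen -/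
def Box (U : Set Es) : Prop :=
  IsClopen U ∧ ∃ F : Finset ℕ, ∀ z ∈ U, ∀ w : Es,
    (∀ i ∈ F, ((w : L2) : ℕ → ℝ) i = ((z : L2) : ℕ → ℝ) i) → w ∈ U

theorem Box.inter {U V : Set Es} (hU : Box U) (hV : Box V) : Box (U ∩ V) := by
  classical
  obtain ⟨h1, F, hF⟩ := hU
  obtain ⟨h2, G, hG⟩ := hV
  refine ⟨h1.inter h2, F ∪ G, fun z hz w hw => ⟨hF z hz.1 w fun i hi => hw i ?_,
    hG z hz.2 w fun i hi => hw i ?_⟩⟩
  · exact Finset.mem_union_left _ hi
  · exact Finset.mem_union_right _ hi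

theorem Box.univ : Box Set.univ := ⟨isClopen_univ, ∅, fun _ _ _ _ => trivial⟩

theorem exists_box (y : Es) (F : Finset ℕ) (η : ℝ) (hη : 0 < η) :
    ∃ U : Set Es, Box U ∧ y ∈ U ∧
      ∀ z ∈ U, ∀ i ∈ F, |((z : L2) : ℕ → ℝ) i - ((y : L2) : ℕ → ℝ) i| ≤ η := by
  have hd : Dense (E0ᶜ) := E0_countable.dense_compl ℝ
  have h1 : ∀ i : ℕ, ∃ a, a ∉ E0 ∧ ((y : L2) : ℕ → ℝ) i - η < a ∧ a < ((y : L2) : ℕ → ℝ) i := by
    intro i
    obtain ⟨a, ha1, ha2⟩ := hd.exists_between (show ((y : L2) : ℕ → ℝ) i - η <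
      ((y : L2) : ℕ → ℝ) i by linarith)
    exact ⟨a, ha1, ha2.1, ha2.2⟩
  have h2 : ∀ i : ℕ, ∃ a, a ∉ E0 ∧ ((y : L2) : ℕ → ℝ) i < a ∧ a < ((y : L2) : ℕ → ℝ) i + η := by
    intro i
    obtain ⟨a, ha1, ha2⟩ := hd.exists_between (show ((y : L2) : ℕ → ℝ) i <
      ((y : L2) : ℕ → ℝ) i + η by linarith)
    exact ⟨a, ha1, ha2.1, ha2.2⟩
  choose a ha1 ha2 ha3 using h1
  choose b hb1 hb2 hb3 using h2
  have hc : ∀ i, Continuous (fun z : Es => ((z : L2) : ℕ → ℝ) i) := fun i =>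
    (coord_cont i).comp continuous_subtype_val
  have e1 : (⋂ i ∈ F, {z : Es | ((z : L2) : ℕ → ℝ) i ∈ Set.Ioo (a i) (b i)}) =
      ⋂ i ∈ F, {z : Es | ((z : L2) : ℕ → ℝ) i ∈ Set.Icc (a i) (b i)} := by
    refine Set.iInter_congr fun i => Set.iInter_congr fun _ => ?_
    ext z
    have hz := mem_Es.1 z.2 i
    simp only [Set.mem_setOf_eq]
    constructor
    · intro h; exact ⟨h.1.le, h.2.le⟩
    · intro h
      refine ⟨lt_of_le_of_ne h.1 ?_, lt_of_le_of_ne h.2 ?_⟩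
      · rintro h'; exact ha1 i (h' ▸ hz)
      · rintro h'; exact hb1 i (h' ▸ hz)
  refine ⟨⋂ i ∈ F, {z : Es | ((z : L2) : ℕ → ℝ) i ∈ Set.Ioo (a i) (b i)}, ⟨⟨?_, ?_⟩, F, ?_⟩, ?_, ?_⟩
  · rw [e1]
    exact isClosed_biInter fun i _ => isClosed_Icc.preimage (hc i)
  · exact isOpen_biInter_finset fun i _ => isOpen_Ioo.preimage (hc i)
  · intro z hz w hw
    simp only [Set.mem_iInter, Set.mem_setOf_eq] at hz ⊢
    intro i hi
    rw [hw i hi]
    exact hz i hi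
  · simp only [Set.mem_iInter, Set.mem_setOf_eq]
    intro i _
    exact ⟨ha3 i, hb2 i⟩
  · intro z hz i hi
    simp only [Set.mem_iInter, Set.mem_setOf_eq] at hz
    have h3 := hz i hi
    rw [abs_le]
    constructor
    · linarith [h3.1, ha2 i]
    · linarith [h3.2, hb3 i]

/-- the shrinking step -/
theorem step (A W : Set Es) (hW : Box W) (hne : (A ∩ W).Nonempty) (R : ℝ) (hR : 0 ≤ R)
    (hA : ∀ z ∈ A, ‖(z : L2)‖ ≤ R) (ε : ℝ) (hε : 0 < ε) :
    ∃ W', Box W' ∧ W' ⊆ W ∧ (A ∩ W').Nonempty ∧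
      ∀ z ∈ A ∩ W', ∀ w ∈ A ∩ W', dist z w ≤ ε := by
  have hbdd : BddAbove ((fun z : Es => ‖(z : L2)‖ ^ 2) '' (A ∩ W)) := by
    refine ⟨R ^ 2, ?_⟩
    rintro _ ⟨z, hz, rfl⟩
    exact pow_le_pow_left₀ (norm_nonneg _) (hA z hz.1) 2
  set s := sSup ((fun z : Es => ‖(z : L2)‖ ^ 2) '' (A ∩ W)) with hs
  obtain ⟨_, ⟨y, hy, rfl⟩, hys⟩ := exists_lt_of_lt_csSup (hne.image _)
    (show s - ε ^ 2 / 16 < s by have : 0 < ε ^ 2 / 16 := by positivity
                                linarith)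
  simp only at hys
  -- approximate `y`
  have hsum : HasSum (fun i => lp.single 2 i (((y : L2) : ℕ → ℝ) i)) (y : L2) :=
    lp.hasSum_single (by norm_num) (y : L2)
  have hδ : 0 < ε ^ 2 / (64 * (R + 1)) := by positivity
  obtain ⟨F, hF⟩ := (Metric.tendsto_atTop.1 hsum) _ hδ
  have hF := hF F le_rfl
  set y' : L2 := ∑ i ∈ F, lp.single 2 i (((y : L2) : ℕ → ℝ) i) with hy'
  have hη : 0 < ε ^ 2 / (32 * ((F.card : ℝ) + 1) * (R + 1)) := by positivity
  obtain ⟨U, hU, hyU, hUz⟩ := exists_box y F _ hη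
  refine ⟨W ∩ U, hW.inter hU, Set.inter_subset_left, ⟨y, hy.1, hy.2, hyU⟩, ?_⟩
  have key : ∀ z ∈ A ∩ (W ∩ U), ‖(z : L2) - (y : L2)‖ ≤ ε / 2 := by
    rintro z ⟨hz1, hz2, hz3⟩
    have h1 : ‖(z : L2)‖ ^ 2 ≤ s := le_csSup hbdd ⟨z, ⟨hz1, hz2⟩, rfl⟩
    have h2 : ‖(z : L2) - (y : L2)‖ ^ 2 =
        ‖(z : L2)‖ ^ 2 - ‖(y : L2)‖ ^ 2 - 2 * inner ℝ ((z : L2) - (y : L2)) (y : L2) := by
      have h3 : (z : L2) = ((z : L2) - (y : L2)) + (y : L2) := by abel
      have h4 := norm_add_sq_real ((z : L2) - (y : L2)) (y : L2)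
      rw [← h3] at h4
      linarith
    have h5 : inner ℝ ((z : L2) - (y : L2)) (y : L2) =
        inner ℝ ((z : L2) - (y : L2)) y' + inner ℝ ((z : L2) - (y : L2)) ((y : L2) - y') := by
      rw [← inner_add_right]; congr 1; abel
    have hyR : ‖(y : L2)‖ ≤ R := hA y hy.1
    have hzR : ‖(z : L2)‖ ≤ R := hA z hz1
    have h6 : |inner ℝ ((z : L2) - (y : L2)) ((y : L2) - y')| ≤ 2 * R * (ε ^ 2 / (64 * (R + 1))) := by
      refine (abs_real_inner_le_norm _ _).trans ?_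
      have h7 : ‖(z : L2) - (y : L2)‖ ≤ 2 * R := (norm_sub_le _ _).trans (by linarith)
      have h8 : ‖(y : L2) - y'‖ ≤ ε ^ 2 / (64 * (R + 1)) := by
        rw [← dist_eq_norm, dist_comm]; exact hF.le
      exact mul_le_mul h7 h8 (norm_nonneg _) (by positivity)
    have h9 : |inner ℝ ((z : L2) - (y : L2)) y'| ≤
        (F.card : ℝ) * ((ε ^ 2 / (32 * ((F.card : ℝ) + 1) * (R + 1))) * R) := by
      rw [hy', inner_sum]
      refine (Finset.abs_sum_le_sum_abs _ _).trans ?_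
      rw [← nsmul_eq_mul]
      refine Finset.sum_le_card_nsmul _ _ _ fun i hi => ?_
      rw [lp.inner_single_right]
      have h10 := hUz z hz3 i hi
      have h11 : |((y : L2) : ℕ → ℝ) i| ≤ R := by
        have := lp.norm_apply_le_norm (p := 2) (by norm_num) (y : L2) i
        rw [Real.norm_eq_abs] at this
        exact this.trans hyR
      have h12 : (((z : L2) - (y : L2) : L2) : ℕ → ℝ) i =
        ((z : L2) : ℕ → ℝ) i - ((y : L2) : ℕ → ℝ) i := rfl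
      have h13 : inner ℝ ((((z : L2) - (y : L2) : L2) : ℕ → ℝ) i) (((y : L2) : ℕ → ℝ) i) =
        (((y : L2) : ℕ → ℝ) i) * (((z : L2) : ℕ → ℝ) i - ((y : L2) : ℕ → ℝ) i) := by
        rw [h12]; simp [mul_comm]
      rw [h13, abs_mul, mul_comm]
      exact mul_le_mul h10 h11 (abs_nonneg _) hη.le
    have h14 : 2 * R * (ε ^ 2 / (64 * (R + 1))) ≤ ε ^ 2 / 32 := by
      rw [mul_div_assoc', div_le_div_iff₀ (by positivity) (by positivity)]
      nlinarith [sq_nonneg ε]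
    have h15 : (F.card : ℝ) * ((ε ^ 2 / (32 * ((F.card : ℝ) + 1) * (R + 1))) * R) ≤ ε ^ 2 / 32 := by
      have hc : (0 : ℝ) ≤ F.card := Nat.cast_nonneg _
      have e1 : (F.card : ℝ) * ((ε ^ 2 / (32 * ((F.card : ℝ) + 1) * (R + 1))) * R) =
        (ε ^ 2 / 32) * ((F.card : ℝ) / ((F.card : ℝ) + 1)) * (R / (R + 1)) := by
        field_simp
      rw [e1]
      have h16 : (F.card : ℝ) / ((F.card : ℝ) + 1) ≤ 1 := by
        rw [div_le_one (by positivity)]; linarith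
      have h17 : R / (R + 1) ≤ 1 := by
        rw [div_le_one (by positivity)]; linarith
      have h18 : 0 ≤ (F.card : ℝ) / ((F.card : ℝ) + 1) := by positivity
      have h19 : 0 ≤ R / (R + 1) := by positivity
      calc (ε ^ 2 / 32) * ((F.card : ℝ) / ((F.card : ℝ) + 1)) * (R / (R + 1))
          ≤ (ε ^ 2 / 32) * 1 * 1 := by gcongr
        _ = ε ^ 2 / 32 := by ring
    have h20 : ‖(z : L2) - (y : L2)‖ ^ 2 ≤ (ε / 2) ^ 2 := by
      rw [h2, h5]
      have h21 := neg_abs_le (inner ℝ ((z : L2) - (y : L2)) ((y : L2) - y'))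
      have h22 := neg_abs_le (inner ℝ ((z : L2) - (y : L2)) y')
      nlinarith [sq_nonneg ε]
    exact abs_le_of_sq_le_sq' h20 (by positivity) |>.2
  intro z hz w hw
  have h1 := key z hz
  have h2 := key w hw
  rw [Subtype.dist_eq, dist_eq_norm]
  calc ‖(z : L2) - (w : L2)‖ = ‖((z : L2) - (y : L2)) - ((w : L2) - (y : L2))‖ := by congr 1; abel
    _ ≤ ε / 2 + ε / 2 := (norm_sub_le _ _).trans (add_le_add h1 h2)
    _ = ε := by ring

/-- A nonempty closed bounded set has a point with small box neighbourhoods. -/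
theorem exists_point (A : Set Es) (hne : A.Nonempty) (hcl : IsClosed A) (R : ℝ) (hR : 0 ≤ R)
    (hA : ∀ z ∈ A, ‖(z : L2)‖ ≤ R) :
    ∃ p ∈ A, ∀ ε > 0, ∃ U : Set Es, Box U ∧ p ∈ U ∧ ∀ z ∈ A ∩ U, dist z p ≤ ε := by
  have st : ∀ (n : ℕ) (W : {W : Set Es // Box W ∧ (A ∩ W).Nonempty}),
      ∃ W' : {W : Set Es // Box W ∧ (A ∩ W).Nonempty}, W'.1 ⊆ W.1 ∧
        ∀ z ∈ A ∩ W'.1, ∀ w ∈ A ∩ W'.1, dist z w ≤ 1 / ((n : ℝ) + 1) := by
    intro n W
    obtain ⟨W', h1, h2, h3, h4⟩ := step A W.1 W.2.1 W.2.2 R hR hA (1 / ((n : ℝ) + 1))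
      (by positivity)
    exact ⟨⟨W', h1, h3⟩, h2, h4⟩
  choose g hg1 hg2 using st
  let W : ℕ → {W : Set Es // Box W ∧ (A ∩ W).Nonempty} := fun n =>
    Nat.rec ⟨Set.univ, Box.univ, by simpa using hne⟩ (fun n W => g n W) n
  have hW1 : ∀ n, (W (n + 1)).1 ⊆ (W n).1 := fun n => hg1 n (W n)
  have hW2 : ∀ n, ∀ z ∈ A ∩ (W (n + 1)).1, ∀ w ∈ A ∩ (W (n + 1)).1,
      dist z w ≤ 1 / ((n : ℝ) + 1) := fun n => hg2 n (W n)
  have hWa : Antitone (fun n => (W n).1) := antitone_nat_of_succ_le hW1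
  choose y hy using fun n => (W n).2.2
  have hcau : CauchySeq y := by
    rw [Metric.cauchySeq_iff']
    intro ε hε
    obtain ⟨n, hn⟩ := exists_nat_one_div_lt hε
    refine ⟨n + 1, fun m hm => ?_⟩
    exact (hW2 n (y m) ⟨(hy m).1, hWa hm (hy m).2⟩ (y (n + 1)) (hy (n + 1))).trans_lt hn
  haveI : CompleteSpace Es := Es_closed.completeSpace_coe
  obtain ⟨p, hp⟩ := cauchySeq_tendsto_of_complete hcau
  have hpA : p ∈ A := hcl.mem_of_tendsto hp (Eventually.of_forall fun n => (hy n).1)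
  have hpW : ∀ n, p ∈ (W n).1 := fun n =>
    (W n).2.1.1.isClosed.mem_of_tendsto hp
      ((eventually_ge_atTop n).mono fun m hm => hWa hm (hy m).2)
  refine ⟨p, hpA, fun ε hε => ?_⟩
  obtain ⟨n, hn⟩ := exists_nat_one_div_lt hε
  exact ⟨(W (n + 1)).1, (W (n + 1)).2.1, hpW (n + 1), fun z hz =>
    (hW2 n z hz p ⟨hpA, hpW (n + 1)⟩).trans hn.le⟩

/-- Erdős: no nonempty bounded set is clopen. -/
theorem no_clopen (D : Set Es) (hne : D.Nonempty) (hcl : IsClopen D) (R : ℝ)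
    (hD : ∀ z ∈ D, ‖(z : L2)‖ ≤ R) : False := by
  have hR : 0 ≤ R := by
    obtain ⟨z, hz⟩ := hne
    exact (norm_nonneg _).trans (hD z hz)
  obtain ⟨p, hpD, hp⟩ := exists_point D hne hcl.isClosed R hR hD
  obtain ⟨ρ, hρ, hball⟩ := Metric.isOpen_iff.1 hcl.isOpen p hpD
  obtain ⟨k0, hk0⟩ := exists_nat_one_div_lt (show (0 : ℝ) < ρ / 2 by positivity)
  set k : ℕ := k0 + 1 with hk
  have hkpos : (0 : ℝ) < k := by rw [hk]; positivity
  have hk1 : 1 / (k : ℝ) < ρ / 2 := by rw [hk]; push_cast; exact hk0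
  obtain ⟨U, ⟨hU1, F, hF⟩, hpU, hU2⟩ := hp (1 / (4 * (k : ℝ))) (by positivity)
  have hten : Tendsto (fun i => ((p : L2) : ℕ → ℝ) i) cofinite (𝓝 0) := by
    have h1 := (lp.memℓp (p : L2)).summable (by norm_num)
    have h2 := h1.tendsto_cofinite_zero
    rw [tendsto_zero_iff_abs_tendsto_zero]
    have h3 := h2.sqrt
    simp only [Real.sqrt_zero] at h3
    refine h3.congr fun i => ?_
    simp [Real.sqrt_sq_eq_abs]
  have hev : ∀ᶠ i in cofinite, |((p : L2) : ℕ → ℝ) i| < 1 / (4 * (k : ℝ)) := by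
    have := hten.eventually (Metric.ball_mem_nhds 0 (show (0 : ℝ) < 1 / (4 * (k : ℝ)) by positivity))
    simpa using this
  obtain ⟨i, hi1, hi2⟩ := (hev.and (F.finite_toSet.eventually_cofinite_notMem)).exists
  have hi2 : i ∉ F := fun h => hi2 (Finset.mem_coe.2 h)
  set q : L2 := (p : L2) + lp.single 2 i (1 / (k : ℝ) - ((p : L2) : ℕ → ℝ) i) with hq
  have hqc : ∀ j, (q : ℕ → ℝ) j = if j = i then 1 / (k : ℝ) else ((p : L2) : ℕ → ℝ) j := by
    intro j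
    have h1 : (q : ℕ → ℝ) j = ((p : L2) : ℕ → ℝ) j +
      (lp.single (E := fun _ : ℕ => ℝ) 2 i (1 / (k : ℝ) - ((p : L2) : ℕ → ℝ) i) : ℕ → ℝ) j := rfl
    rw [h1, lp.single_apply]
    by_cases hj : j = i
    · subst hj; simp
    · simp [hj]
  have hqE : q ∈ Es := by
    rw [mem_Es]
    intro j
    rw [hqc]
    split_ifs
    · exact mem_E0.2 (Or.inr ⟨k, by omega, rfl⟩)
    · exact mem_Es.1 p.2 j
  have hdist : dist (⟨q, hqE⟩ : Es) p = |1 / (k : ℝ) - ((p : L2) : ℕ → ℝ) i| := by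
    rw [Subtype.dist_eq, dist_eq_norm]
    simp only [hq, add_sub_cancel_left]
    rw [lp.norm_single (by norm_num), Real.norm_eq_abs]
  have hlt : |1 / (k : ℝ) - ((p : L2) : ℕ → ℝ) i| < ρ := by
    have h1 : 1 / (4 * (k : ℝ)) ≤ 1 / (k : ℝ) := by
      apply one_div_le_one_div_of_le hkpos; linarith
    have h2 := abs_lt.1 hi1
    rw [abs_lt]
    have h3 : 0 < 1 / (k : ℝ) := by positivity
    constructor <;> linarith
  have hqD : (⟨q, hqE⟩ : Es) ∈ D := hball (by rw [Metric.mem_ball, hdist]; exact hlt)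
  have hqU : (⟨q, hqE⟩ : Es) ∈ U := by
    refine hF p hpU _ fun j hj => ?_
    have : j ≠ i := fun h => hi2 (h ▸ hj)
    simp [hqc, this]
  have h1 := hU2 _ ⟨hqD, hqU⟩
  rw [hdist] at h1
  have h2 := abs_lt.1 hi1
  have h3 := (abs_le.1 h1).2
  have h4 : 1 / (4 * (k : ℝ)) = (1 / (k : ℝ)) / 4 := by field_simp
  rw [h4] at h2 h3
  have h5 : 0 < 1 / (k : ℝ) := by positivity
  linarith [h2.1, h2.2]

/-- No closed embedding of `Es` in itself has bounded range. -/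
theorem no_embedding (f : Es → Es) (hf : IsClosedEmbedding f) (R : ℝ)
    (hR : ∀ x, ‖(f x : L2)‖ ≤ R) : False := by
  have h0 : (0 : L2) ∈ Es := by
    rw [mem_Es]; intro i; exact mem_E0.2 (Or.inl rfl)
  have hR0 : 0 ≤ R := (norm_nonneg _).trans (hR ⟨0, h0⟩)
  obtain ⟨_, ⟨x, rfl⟩, hx⟩ := exists_point (Set.range f) ⟨f ⟨0, h0⟩, ⟨_, rfl⟩⟩ hf.isClosed_range R hR0
    (by rintro _ ⟨z, rfl⟩; exact hR z)
  have h1 : Metric.ball x 1 ∈ 𝓝 x := Metric.ball_mem_nhds x one_pos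
  rw [hf.toIsEmbedding.toIsInducing.nhds_eq_comap, mem_comap] at h1
  obtain ⟨t, ht, hsub⟩ := h1
  obtain ⟨ε, hε, hball⟩ := Metric.mem_nhds_iff.1 ht
  obtain ⟨U, hU, hxU, hU2⟩ := hx (ε / 2) (by positivity)
  refine no_clopen (f ⁻¹' U) ⟨x, hxU⟩ (hU.1.preimage hf.continuous) (‖(x : L2)‖ + 1) ?_
  intro z hz
  have h2 : dist (f z) (f x) ≤ ε / 2 := hU2 _ ⟨⟨z, rfl⟩, hz⟩
  have h3 : z ∈ Metric.ball x 1 := hsub (hball (by
    rw [Metric.mem_ball]; linarith))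
  rw [Metric.mem_ball, Subtype.dist_eq, dist_eq_norm] at h3
  have h4 : (z : L2) = ((z : L2) - (x : L2)) + (x : L2) := by abel
  rw [h4]
  exact (norm_add_le _ _).trans (by linarith)

end Pool.Agent.U269.Erd
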